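import Mathlib
import Pool.Agent.W192.HK.Parts

/-!
# Sums over ideals as sums over elements
-/

set_option autoImplicit false

open Complex Filter Topology Set

namespace Pool.Agent.W856.HK

open Pool.Agent.W192.HK
open Pool.Agent.W192.CM (ez nu)

theorem key {A B U : Type*} [Finite U] [Nonempty U] (S : Set A) (T : Set B) (e : (T × U) ≃ S)
    (G : A → ℂ) (F : B → ℂ) (h : ∀ p : T × U, G (e p) = F p.1) :
    (Summable (S.indicator G) ↔ Summable (T.indicator F)) ∧
    (Summable (T.indicator F) →
      ∑' a, S.indicator G a = (Nat.card U : ℂ) * ∑' b, T.indicator F b) := by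
  have hcongr : (fun p : T × U => G (e p)) = fun p : T × U => F p.1 := funext h
  have h2 : Summable (fun p : T × U => F p.1) ↔ Summable (fun t : T => F t) := by
    constructor
    · intro hs
      obtain ⟨u⟩ := (inferInstance : Nonempty U)
      exact hs.comp_injective (i := fun t : T => (t, u)) (fun a b hab => congrArg Prod.fst hab)
    · intro hs
      rw [← summable_norm_iff] at hs ⊢
      rw [summable_prod_of_nonneg (fun _ => norm_nonneg _)]
      refine ⟨fun _ => ?_, ?_⟩
      · exact summable_of_finite_support (Set.toFinite _)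
      · simp only [tsum_const, nsmul_eq_mul]
        exact hs.mul_left _
  have h1 : Summable (S.indicator G) ↔ Summable (fun p : T × U => F p.1) := by
    rw [← summable_subtype_iff_indicator, ← e.summable_iff]
    have : ((G ∘ ((↑) : S → A)) ∘ e) = fun p : T × U => F p.1 := hcongr
    rw [this]
  have h3 : Summable (T.indicator F) ↔ Summable (fun t : T => F t) := by
    rw [← summable_subtype_iff_indicator]
    rfl
  refine ⟨by rw [h1, h2, h3], ?_⟩
  intro hs
  have hs2 : Summable (fun p : T × U => F p.1) := h2.2 (h3.1 hs)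
  rw [← tsum_subtype, ← tsum_subtype, ← e.tsum_eq, hcongr, hs2.tsum_prod]
  simp only [tsum_const, nsmul_eq_mul]
  rw [tsum_mul_left]

theorem quo_mul {R : Subring ℂ} [IsDedekindDomain R] (b : Ideal R) (α : R) (hα : α ∈ b) :
    quo b α * b = sp α := by
  have h : ∃ J, J * b = sp α := by
    have hd : b ∣ sp α := Ideal.dvd_iff_le.2 (by
      rw [Ideal.span_singleton_le_iff_mem]
      exact hα)
    obtain ⟨J, hJ⟩ := hd
    exact ⟨J, by rw [mul_comm]; exact hJ.symm⟩
  unfold quo
  rw [dif_pos h]
  exact Classical.choose_spec h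

theorem h_dec (h1 : H_BASIC) : H_DEC := by
  classical
  intro R ω hR s hs
  have : IsDedekindDomain R := hR.ded
  have hfin : Finite Rˣ := (h1 R ω hR).2.2.2.2.2.2.2.2
  have hmul : ∀ b : Ideal R, ∀ α : R, α ∈ b → quo b α * b = sp α := fun b α hα => quo_mul b α hα
  refine ⟨fun b _ α hα => hmul b α hα, ?_⟩
  intro F hF
  have hnu : (nu R : ℂ) ≠ 0 := by
    unfold Pool.Agent.W192.CM.nu
    exact_mod_cast Nat.card_pos.ne'
  -- the parts of the decomposition
  let T : Ideal R → Set (Ideal R) := fun b => {I | I ≠ ⊥ ∧ ∃ α : R, I * b = sp α}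
  let S : Ideal R → Set R := fun b => {α | α ∈ b ∧ α ≠ 0}
  have hequiv : ∀ b ∈ s, ∃ e : (T b × Rˣ) ≃ S b, ∀ p : T b × Rˣ,
      F (quo b ((e p : S b) : R)) = F (p.1 : Ideal R) := by
    intro b hb
    have hb0 : b ≠ ⊥ := hs.ne b hb
    have hg : ∀ I : T b, ∃ α : R, (I : Ideal R) * b = sp α := fun I => I.2.2
    choose g hgI using hg
    have hg0 : ∀ I : T b, g I ≠ 0 := by
      intro I h0
      have := hgI I
      rw [h0] at this
      have h3 : (I : Ideal R) * b = ⊥ := by
        rw [this]
        exact Ideal.span_singleton_eq_bot.2 rfl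
      rcases Ideal.mul_eq_bot.1 h3 with h4 | h4
      · exact I.2.1 h4
      · exact hb0 h4
    have hgb : ∀ I : T b, g I ∈ b := by
      intro I
      have h3 : sp (g I) ≤ b := by
        rw [← hgI I]
        exact Ideal.dvd_iff_le.1 (Dvd.intro_left (I : Ideal R) rfl)
      exact h3 (Ideal.mem_span_singleton_self _)
    have hsp : ∀ (I : T b) (u : Rˣ), sp ((u : R) * g I) = (I : Ideal R) * b := by
      intro I u
      rw [hgI I]
      exact Ideal.span_singleton_eq_span_singleton.2
        ⟨u⁻¹, by rw [mul_comm (u : R), mul_assoc, Units.mul_inv, mul_one]⟩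
    have hmem : ∀ p : T b × Rˣ, (p.2 : R) * g p.1 ∈ S b := by
      intro p
      exact ⟨b.mul_mem_left _ (hgb p.1), mul_ne_zero p.2.ne_zero (hg0 p.1)⟩
    have hbij : Function.Bijective (fun p : T b × Rˣ => (⟨(p.2 : R) * g p.1, hmem p⟩ : S b)) := by
      constructor
      · rintro ⟨I, u⟩ ⟨I', u'⟩ h
        have h' : (u : R) * g I = (u' : R) * g I' := congrArg Subtype.val h
        have h3 : (I : Ideal R) * b = (I' : Ideal R) * b := by
          rw [← hsp I u, ← hsp I' u', h']
        have h4 : I = I' := Subtype.ext (mul_right_cancel₀ hb0 h3)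
        subst h4
        have h5 : (u : R) = u' := mul_right_cancel₀ (hg0 I) h'
        exact Prod.ext rfl (Units.ext h5)
      · rintro ⟨α, hα, hα0⟩
        have hq := hmul b α hα
        have hq0 : quo b α ≠ ⊥ := by
          intro h0
          rw [h0, Ideal.bot_mul] at hq
          exact hα0 (Ideal.span_singleton_eq_bot.1 hq.symm)
        let I : T b := ⟨quo b α, hq0, α, hq⟩
        have h3 : sp (g I) = sp α := by
          rw [← hgI I]
          exact hq
        obtain ⟨u, hu⟩ := Ideal.span_singleton_eq_span_singleton.1 h3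
        refine ⟨(I, u), Subtype.ext ?_⟩
        show (u : R) * g I = α
        rw [mul_comm]
        exact hu
    refine ⟨Equiv.ofBijective _ hbij, ?_⟩
    rintro ⟨I, u⟩
    show F (quo b ((u : R) * g I)) = F (I : Ideal R)
    congr 1
    apply mul_right_cancel₀ hb0
    rw [hmul b _ (hmem (I, u)).1]
    exact hsp I u
  -- sums over elements
  have hquo0 : ∀ b ∈ s, quo b (0 : R) = ⊥ := by
    intro b hb
    have h3 := hmul b 0 b.zero_mem
    have h4 : quo b (0 : R) * b = ⊥ := by
      rw [h3]
      exact Ideal.span_singleton_eq_bot.2 rfl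
    rcases Ideal.mul_eq_bot.1 h4 with h5 | h5
    · exact h5
    · exact absurd h5 (hs.ne b hb)
  have hind : ∀ b ∈ s, (fun α : R => if α ∈ b then F (quo b α) else 0) =
      (S b).indicator (fun α => F (quo b α)) := by
    intro b hb
    funext α
    by_cases hα : α ∈ b
    · by_cases h0 : α = 0
      · subst h0
        rw [if_pos hα, hquo0 b hb, hF, Set.indicator_of_notMem]
        intro h
        exact h.2 rfl
      · rw [if_pos hα, Set.indicator_of_mem (show α ∈ S b from ⟨hα, h0⟩)]
    · rw [if_neg hα, Set.indicator_of_notMem]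
      intro h
      exact hα h.1
  have hk : ∀ b ∈ s, (Summable (fun α : R => if α ∈ b then F (quo b α) else 0) ↔
      Summable ((T b).indicator F)) ∧ (Summable ((T b).indicator F) →
      ∑' α : R, (if α ∈ b then F (quo b α) else 0) = (nu R : ℂ) * ∑' I, (T b).indicator F I) := by
    intro b hb
    obtain ⟨e, he⟩ := hequiv b hb
    have := key (S b) (T b) e (fun α => F (quo b α)) F he
    rw [hind b hb]
    exact this
  -- decomposition of the sum over ideals
  have hdec : F = fun I => ∑ b ∈ s, (T b).indicator F I := by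
    funext I
    by_cases hI : I = ⊥
    · subst hI
      rw [hF]
      symm
      apply Finset.sum_eq_zero
      intro b _
      apply Set.indicator_of_notMem
      intro h
      exact h.1 rfl
    · obtain ⟨b, ⟨hb, hα⟩, hu⟩ := hs.uni I hI
      rw [Finset.sum_eq_single_of_mem b hb]
      · rw [Set.indicator_of_mem (show I ∈ T b from ⟨hI, hα⟩)]
      · intro b' hb' hne
        apply Set.indicator_of_notMem
        intro h
        exact hne (hu b' ⟨hb', h.2⟩)
  constructor
  · constructor
    · intro hsum b hb
      exact (hk b hb).1.2 (hsum.indicator _)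
    · intro hall
      rw [hdec]
      exact summable_sum fun b hb => (hk b hb).1.1 (hall b hb)
  · intro hsum
    have hT : ∀ b ∈ s, Summable ((T b).indicator F) := fun b _ => hsum.indicator _
    calc ∑' I, F I = ∑' I, ∑ b ∈ s, (T b).indicator F I := by
          conv_lhs => rw [hdec]
      _ = ∑ b ∈ s, ∑' I, (T b).indicator F I := Summable.tsum_finsetSum hT
      _ = _ := by
          refine Finset.sum_congr rfl fun b hb => ?_
          rw [(hk b hb).2 (hT b hb)]
          field_simp

end Pool.Agent.W856.HK
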